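import Pool.Agent.H33.SMS.Targets

set_option autoImplicit false

/-!
# Row DET of the board sms_modules
-/

namespace Pool.Agent.H32.SMS

open Pool.Agent.H33.SMS Pool.Agent.H14.MT

theorem sums_cast (s : ℕ) (A : Multiset ℤ) :
    sums s (A.map fun a : ℤ => (a : ℚ)) = (sumsZ s A).map fun a : ℤ => (a : ℚ) := by
  unfold sums sumsZ
  rw [Multiset.powersetCard_map, Multiset.map_map, Multiset.map_map]
  apply Multiset.map_congr rfl
  intro t _
  simp only [Function.comp]
  have h := map_multiset_sum (Int.castRingHom ℚ) t
  exact h.symm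

theorem pf_DET (h : T_DIF) : T_DET := by
  intro n s hG A B hA hB hAB
  have hinj : Function.Injective (fun a : ℤ => (a : ℚ)) := Int.cast_injective
  have e1 : sums s (A.map fun a : ℤ => (a : ℚ)) = sums s (B.map fun a : ℤ => (a : ℚ)) := by
    rw [sums_cast, sums_cast, hAB]
  set A' := A.map fun a : ℤ => (a : ℚ) with hA'
  set B' := B.map fun a : ℤ => (a : ℚ) with hB'
  have hcA : Multiset.card A' = n := by rw [hA', Multiset.card_map, hA]
  have hcB : Multiset.card B' = n := by rw [hB', Multiset.card_map, hB]
  have e2 : (A'.map ex).esymm s = (B'.map ex).esymm s := by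
    rw [esymm_ex, esymm_ex, e1]
  have key : ∀ k : ℕ, PowerSeries.coeff k (EE A') = PowerSeries.coeff k (EE B') := by
    intro k
    induction k using Nat.strong_induction_on with
    | _ k ih =>
      rcases Nat.eq_zero_or_pos k with h0 | h0
      · subst h0
        rw [coeff_zero_EE, coeff_zero_EE, hcA, hcB]
      · obtain ⟨k, rfl⟩ : ∃ t, k = t + 1 := ⟨k - 1, by omega⟩
        have h1 := (h n s k A' B' _ hcA hcB ⟨ih, rfl⟩).2
        rw [e2, sub_self] at h1
        rcases mul_eq_zero.mp h1.symm with h2 | h2
        · exact absurd (by exact_mod_cast h2) (hG k)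
        · exact sub_eq_zero.mp h2
  have h3 : A' = B' := eq_of_ps fun k => ps_eq_of_coeff (key k)
  exact Multiset.map_injective hinj h3

end Pool.Agent.H32.SMS
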