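import Pool.Agent.H33.SMS.Targets

set_option autoImplicit false

/-!
# Rows REC and GRC of the board sms_modules
-/

namespace Pool.Agent.H32.SMS

open Pool.Agent.H33.SMS Pool.Agent.H14.MT

theorem pf_REC : T_REC := by
  intro n s k
  unfold G
  rw [Finset.sum_range_succ, Finset.sum_range_succ (n := s), mul_add, Finset.mul_sum, Finset.mul_sum]
  have h1 : ∑ i ∈ Finset.range s, (-1 : ℤ) ^ i * ((i : ℤ) + 1) ^ (k + 1) * ((n + 1).choose (s + 1 - 1 - i) : ℤ) =
      ∑ i ∈ Finset.range s, ((s : ℤ) + 1) * ((-1) ^ i * ((i : ℤ) + 1) ^ k * ((n + 1).choose (s + 1 - 1 - i) : ℤ)) -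
        ∑ i ∈ Finset.range s, ((n : ℤ) + 1) * ((-1) ^ i * ((i : ℤ) + 1) ^ k * (n.choose (s - 1 - i) : ℤ)) := by
    rw [← Finset.sum_sub_distrib]
    apply Finset.sum_congr rfl
    intro i hi
    rw [Finset.mem_range] at hi
    obtain ⟨m, hm⟩ : ∃ m, s = i + m + 1 := ⟨s - i - 1, by omega⟩
    have e1 : s + 1 - 1 - i = m + 1 := by omega
    have e2 : s - 1 - i = m := by omega
    rw [e1, e2]
    have h2 : ((n : ℤ) + 1) * (n.choose m : ℤ) = ((n + 1).choose (m + 1) : ℤ) * ((m : ℤ) + 1) := by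
      exact_mod_cast Nat.add_one_mul_choose_eq n m
    have h3 : (s : ℤ) = i + m + 1 := by exact_mod_cast hm
    rw [h3, pow_succ]
    linear_combination (-1) ^ i * ((i : ℤ) + 1) ^ k * h2
  rw [h1]
  have e3 : s + 1 - 1 - s = 0 := by omega
  rw [e3, Nat.choose_zero_right, pow_succ]
  push_cast
  ring

theorem G_zero (n k : ℕ) : G n 0 k = 0 := by simp [G]

/-- Pascal -/
theorem G_pas (n s k : ℕ) : G (n + 1) (s + 1) k = G n (s + 1) k + G n s k := by
  unfold G
  rw [Finset.sum_range_succ, Finset.sum_range_succ (n := s)]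
  have h1 : ∑ i ∈ Finset.range s, (-1 : ℤ) ^ i * ((i : ℤ) + 1) ^ k * ((n + 1).choose (s + 1 - 1 - i) : ℤ) =
      ∑ i ∈ Finset.range s, (-1) ^ i * ((i : ℤ) + 1) ^ k * (n.choose (s + 1 - 1 - i) : ℤ) +
        ∑ i ∈ Finset.range s, (-1) ^ i * ((i : ℤ) + 1) ^ k * (n.choose (s - 1 - i) : ℤ) := by
    rw [← Finset.sum_add_distrib]
    apply Finset.sum_congr rfl
    intro i hi
    rw [Finset.mem_range] at hi
    obtain ⟨m, hm⟩ : ∃ m, s = i + m + 1 := ⟨s - i - 1, by omega⟩
    have e1 : s + 1 - 1 - i = m + 1 := by omega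
    have e2 : s - 1 - i = m := by omega
    rw [e1, e2, Nat.choose_succ_succ']
    push_cast
    ring
  rw [h1]
  have e3 : s + 1 - 1 - s = 0 := by omega
  rw [e3, Nat.choose_zero_right, Nat.choose_zero_right]
  ring

theorem G_alt (n s k : ℕ) : ∑ i ∈ Finset.range (s + 1), (-1 : ℤ) ^ i * G (n + 1) (s - i) k = G n s k := by
  induction s with
  | zero => simp [G_zero]
  | succ s ih =>
    rw [Finset.sum_range_succ']
    have h1 : ∑ i ∈ Finset.range (s + 1), (-1 : ℤ) ^ (i + 1) * G (n + 1) (s + 1 - (i + 1)) k =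
        -∑ i ∈ Finset.range (s + 1), (-1 : ℤ) ^ i * G (n + 1) (s - i) k := by
      rw [← Finset.sum_neg_distrib]
      apply Finset.sum_congr rfl
      intro i _
      rw [Nat.add_sub_add_right, pow_succ]
      ring
    rw [h1, ih, Nat.sub_zero, G_pas]
    ring

theorem pf_GRC : T_GRC := by
  intro n s k
  have hsplit : ∑ i ∈ Finset.range s, (-1 : ℤ) ^ i * ((n : ℤ) * G n (s - 1 - i) k +
      ((i : ℤ) + 1) ^ (k + 1) * (n.choose (s - 1 - i) : ℤ)) =
      (n : ℤ) * ∑ i ∈ Finset.range s, (-1 : ℤ) ^ i * G n (s - 1 - i) k + G n s (k + 1) := by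
    unfold G
    rw [Finset.mul_sum, ← Finset.sum_add_distrib]
    apply Finset.sum_congr rfl
    intro i _
    ring
  rw [hsplit]
  rcases Nat.eq_zero_or_pos s with hs | hs
  · subst hs
    simp [G_zero]
  · obtain ⟨s, rfl⟩ : ∃ t, s = t + 1 := ⟨s - 1, by omega⟩
    rcases Nat.eq_zero_or_pos n with hn | hn
    · subst hn
      unfold G
      rw [Nat.cast_zero, zero_mul, zero_add, Finset.mul_sum]
      apply Finset.sum_congr rfl
      intro i hi
      rw [Finset.mem_range] at hi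
      by_cases h : i = s
      · subst h
        rw [pow_succ]
        push_cast
        ring
      · have h2 : Nat.choose 0 (s + 1 - 1 - i) = 0 := Nat.choose_eq_zero_of_lt (by omega)
        rw [h2]
        simp
    · obtain ⟨n, rfl⟩ : ∃ t, n = t + 1 := ⟨n - 1, by omega⟩
      have h1 := G_alt n s k
      have h2 := pf_REC n s k
      have h3 : ∑ i ∈ Finset.range (s + 1), (-1 : ℤ) ^ i * G (n + 1) (s + 1 - 1 - i) k = G n s k := h1
      rw [h3, h2]
      push_cast
      ring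

end Pool.Agent.H32.SMS
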